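import Pool.Agent.helper91.SI.Spec3

set_option autoImplicit false

namespace Pool.Agent.helper91.SI

open Pool.Agent.helper20.IG (IsIndepDom IsISet iGraph)

theorem PP3_cases (k : ZMod 7) : k = 0 ∨ k = 1 ∨ k = 2 ∨ k = 3 ∨ k = 4 ∨ k = 5 ∨ k = 6 := by
  revert k; decide

theorem PP3 (hIAD : IAD_stmt) (hSLD : SLD_stmt) (hSAM : SAM_stmt) (hCFL : CFL_stmt)
    (hCI3 : CI3_stmt) : PP3_stmt := by
  intro V _ G hT hC4 hC6 hI4 hP
  obtain ⟨S, Y, hS, hY, hadj⟩ := hP
  obtain ⟨R, z, hz, hzR, hRz, hSt⟩ := hCI3 V G hT hC4 hI4 S hS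
  have key : ∀ t a b c : ZMod 7, 5 * t = a → a + 2 = b → a + 4 = c →
      (S t).1 = R ∪ {z a, z b, z c} := by
    rintro t a b c rfl rfl rfl
    exact hSt t
  have hS0 : (S 0).1 = R ∪ {z 0, z 2, z 4} := key 0 0 2 4 (by decide) (by decide) (by decide)
  have hS1 : (S 1).1 = R ∪ {z 5, z 0, z 2} := key 1 5 0 2 (by decide) (by decide) (by decide)
  have hS6 : (S 6).1 = R ∪ {z 2, z 4, z 6} := key 6 2 4 6 (by decide) (by decide) (by decide)
  have hS2 : (S 2).1 = R ∪ {z 3, z 5, z 0} := key 2 3 5 0 (by decide) (by decide) (by decide)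
  have hS4 : (S 4).1 = R ∪ {z 6, z 1, z 3} := key 4 6 1 3 (by decide) (by decide) (by decide)
  have m0 : ∀ x, x ∈ (S 0).1 ↔ x ∈ R ∨ x = z 0 ∨ x = z 2 ∨ x = z 4 := by
    intro x; rw [hS0]; simp only [Finset.mem_union, Finset.mem_insert, Finset.mem_singleton]
  have m2 : ∀ x, x ∈ (S 2).1 ↔ x ∈ R ∨ x = z 3 ∨ x = z 5 ∨ x = z 0 := by
    intro x; rw [hS2]; simp only [Finset.mem_union, Finset.mem_insert, Finset.mem_singleton]
  have m4 : ∀ x, x ∈ (S 4).1 ↔ x ∈ R ∨ x = z 6 ∨ x = z 1 ∨ x = z 3 := by
    intro x; rw [hS4]; simp only [Finset.mem_union, Finset.mem_insert, Finset.mem_singleton]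
  have hne : ∀ i j : ZMod 7, i ≠ j → z i ≠ z j := fun i j h h' => h (hz.1 h')
  have a01 : G.Adj (z 0) (z 1) := hz.2 0
  have a12 : G.Adj (z 1) (z 2) := by
    have := hz.2 1
    rwa [show (1 + 1 : ZMod 7) = 2 by decide] at this
  have a23 : G.Adj (z 2) (z 3) := by
    have := hz.2 2
    rwa [show (2 + 1 : ZMod 7) = 3 by decide] at this
  have a34 : G.Adj (z 3) (z 4) := by
    have := hz.2 3
    rwa [show (3 + 1 : ZMod 7) = 4 by decide] at this
  have a45 : G.Adj (z 4) (z 5) := by
    have := hz.2 4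
    rwa [show (4 + 1 : ZMod 7) = 5 by decide] at this
  have a56 : G.Adj (z 5) (z 6) := by
    have := hz.2 5
    rwa [show (5 + 1 : ZMod 7) = 6 by decide] at this
  have a60 : G.Adj (z 6) (z 0) := by
    have := hz.2 6
    rwa [show (6 + 1 : ZMod 7) = 0 by decide] at this
  have n5 : z 5 ∉ (S 0).1 := by
    rw [m0]
    rintro (h | h | h | h)
    · exact hzR 5 h
    · exact hne 5 0 (by decide) h
    · exact hne 5 2 (by decide) h
    · exact hne 5 4 (by decide) h
  have n6 : z 6 ∉ (S 0).1 := by
    rw [m0]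
    rintro (h | h | h | h)
    · exact hzR 6 h
    · exact hne 6 0 (by decide) h
    · exact hne 6 2 (by decide) h
    · exact hne 6 4 (by decide) h
  have i0 : z 0 ∈ (S 0).1 := by rw [m0]; simp
  have i2 : z 2 ∈ (S 0).1 := by rw [m0]; simp
  have i4 : z 4 ∈ (S 0).1 := by rw [m0]; simp
  have e1 : insert (z 5) ((S 0).1.erase (z 4)) = (S 1).1 := by
    rw [hS0, hS1]
    ext x
    simp only [Finset.mem_insert, Finset.mem_erase, Finset.mem_union, Finset.mem_singleton]
    constructor
    · rintro (h | ⟨h, h' | h' | h' | h'⟩)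
      · exact Or.inr (Or.inl h)
      · exact Or.inl h'
      · exact Or.inr (Or.inr (Or.inl h'))
      · exact Or.inr (Or.inr (Or.inr h'))
      · exact absurd h' h
    · rintro (h | h | h | h)
      · refine Or.inr ⟨?_, Or.inl h⟩
        rintro rfl
        exact hzR 4 h
      · exact Or.inl h
      · refine Or.inr ⟨?_, Or.inr (Or.inl h)⟩
        rw [h]
        exact hne 0 4 (by decide)
      · refine Or.inr ⟨?_, Or.inr (Or.inr (Or.inl h))⟩
        rw [h]
        exact hne 2 4 (by decide)
  have e6 : insert (z 6) ((S 0).1.erase (z 0)) = (S 6).1 := by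
    rw [hS0, hS6]
    ext x
    simp only [Finset.mem_insert, Finset.mem_erase, Finset.mem_union, Finset.mem_singleton]
    constructor
    · rintro (h | ⟨h, h' | h' | h' | h'⟩)
      · exact Or.inr (Or.inr (Or.inr h))
      · exact Or.inl h'
      · exact absurd h' h
      · exact Or.inr (Or.inl h')
      · exact Or.inr (Or.inr (Or.inl h'))
    · rintro (h | h | h | h)
      · refine Or.inr ⟨?_, Or.inl h⟩
        rintro rfl
        exact hzR 0 h
      · refine Or.inr ⟨?_, Or.inr (Or.inr (Or.inl h))⟩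
        rw [h]
        exact hne 2 0 (by decide)
      · refine Or.inr ⟨?_, Or.inr (Or.inr (Or.inr h))⟩
        rw [h]
        exact hne 4 0 (by decide)
      · exact Or.inl h
  have sl4 : Slide G (S 0).1 (z 4) (z 5) :=
    ⟨(S 0).2, i4, n5, a45, by rw [e1]; exact (S 1).2⟩
  have sl0 : Slide G (S 0).1 (z 0) (z 6) :=
    ⟨(S 0).2, i0, n6, a60.symm, by rw [e6]; exact (S 6).2⟩
  obtain ⟨r, r', slr, hYr⟩ := (hIAD V G (S 0) Y).mp hadj
  have hr4 : r ≠ z 4 := by
    rintro rfl
    have h := hSAM V G _ _ _ _ hT slr sl4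
    rw [h, e1] at hYr
    exact hY 1 (Subtype.ext hYr)
  have hr0 : r ≠ z 0 := by
    rintro rfl
    have h := hSAM V G _ _ _ _ hT slr sl0
    rw [h, e6] at hYr
    exact hY 6 (Subtype.ext hYr)
  have p' := (hSLD V G _ _ _ hT slr).1
  have p5 := (hSLD V G _ _ _ hT sl4).1
  have p6 := (hSLD V G _ _ _ hT sl0).1
  have ir : r ∈ (S 0).1 := slr.2.1
  have nr' : r' ∉ (S 0).1 := slr.2.2.1
  have arr' : G.Adj r r' := slr.2.2.2.1
  have hind : ∀ u ∈ (S 0).1, ∀ v ∈ (S 0).1, ¬ G.Adj u v := (S 0).2.1.1
  have hr'5 : r' ≠ z 5 := by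
    intro h
    exact hr4 (p' (z 4) i4 (by rw [h]; exact a45)).symm
  have hr'6 : r' ≠ z 6 := by
    intro h
    exact hr0 (p' (z 0) i0 (by rw [h]; exact a60.symm)).symm
  have hr2 : r ≠ z 2 := by
    intro hr
    have hr'1 : r' ≠ z 1 := by
      intro h
      exact hr0 (p' (z 0) i0 (by rw [h]; exact a01)).symm
    have hr'3 : r' ≠ z 3 := by
      intro h
      exact hr4 (p' (z 4) i4 (by rw [h]; exact a34.symm)).symm
    have hr'0 : r' ≠ z 0 := by
      rintro h
      exact nr' (by rw [h]; exact i0)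
    have hr'R : r' ∉ R := fun h => nr' ((m0 r').mpr (Or.inl h))
    have hRno : ∀ u ∈ R, ¬ G.Adj u r' := by
      intro u hu hur
      have h := p' u ((m0 u).mpr (Or.inl hu)) hur
      rw [h, hr] at hu
      exact hzR 2 hu
    have a2 : G.Adj (z 2) r' := by rw [← hr]; exact arr'
    have h5 : G.Adj (z 5) r' := by
      have hn : r' ∉ (S 2).1 := by
        rw [m2]
        rintro (h | h | h | h)
        · exact hr'R h
        · exact hr'3 h
        · exact hr'5 h
        · exact hr'0 h
      obtain ⟨u, hu, hur⟩ := (S 2).2.1.2 r' hn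
      rw [m2] at hu
      rcases hu with h | h | h | h
      · exact absurd hur (hRno u h)
      · rw [h] at hur
        exact (hT _ _ _ a23 hur a2).elim
      · rwa [h] at hur
      · rw [h] at hur
        exact absurd (p' (z 0) i0 hur).symm hr0
    have h6 : G.Adj (z 6) r' := by
      have hn : r' ∉ (S 4).1 := by
        rw [m4]
        rintro (h | h | h | h)
        · exact hr'R h
        · exact hr'6 h
        · exact hr'1 h
        · exact hr'3 h
      obtain ⟨u, hu, hur⟩ := (S 4).2.1.2 r' hn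
      rw [m4] at hu
      rcases hu with h | h | h | h
      · exact absurd hur (hRno u h)
      · rwa [h] at hur
      · rw [h] at hur
        exact (hT _ _ _ a12 a2 hur).elim
      · rw [h] at hur
        exact (hT _ _ _ a23 hur a2).elim
    exact hT _ _ _ a56 h6 h5
  have c4 := hCFL V G _ _ _ _ _ hT hI4 sl4 slr (Ne.symm hr4)
  have c0 := hCFL V G _ _ _ _ _ hT hI4 sl0 slr (Ne.symm hr0)
  rcases c4 with b5 | ⟨w4, d1, d2, d3⟩
  · rcases c0 with b6 | ⟨w0, f1, f2, f3⟩
    · exact (hT _ _ _ a56 b6 b5).elim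
    · exfalso
      have g0 : w0 ∉ (S 0).1 := fun h => hind _ i0 _ h f1
      have g1 : w0 ≠ r' := by
        rintro rfl
        exact hr0 (p' (z 0) i0 f1).symm
      have g2 : w0 ≠ z 5 := by
        rintro rfl
        exact hne 0 4 (by decide) (p5 (z 0) i0 f1)
      have g3 : w0 ≠ z 6 := by
        rintro rfl
        exact hr0 (p6 r ir f2)
      refine hC6 r r' (z 5) (z 6) (z 0) w0 ?_ arr' b5.symm a56 a60 f1 f2.symm
      have x1 : r ≠ r' := fun h => nr' (h ▸ ir)
      have x2 : r ≠ z 5 := fun h => n5 (h ▸ ir)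
      have x3 : r ≠ z 6 := fun h => n6 (h ▸ ir)
      have x4 : r ≠ w0 := fun h => g0 (h ▸ ir)
      have x5 : r' ≠ z 0 := fun h => nr' (h ▸ i0)
      have x6 : z 5 ≠ z 6 := hne 5 6 (by decide)
      have x7 : z 5 ≠ z 0 := hne 5 0 (by decide)
      have x8 : z 6 ≠ z 0 := hne 6 0 (by decide)
      have x9 : z 0 ≠ w0 := fun h => g0 (h ▸ i0)
      simp only [List.nodup_cons, List.mem_cons, List.not_mem_nil, or_false, not_or,
        List.nodup_nil, and_true, not_false_eq_true]
      exact ⟨⟨x1, x2, x3, hr0, x4⟩, ⟨hr'5, hr'6, x5, g1.symm⟩, ⟨x6, x7, g2.symm⟩, ⟨x8, g3.symm⟩, x9⟩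
  · have k0 : w4 ∉ (S 0).1 := fun h => hind _ i4 _ h d1
    have k1 : w4 ≠ r' := by
      rintro rfl
      exact hr4 (p' (z 4) i4 d1).symm
    have k2 : w4 ≠ z 5 := by
      rintro rfl
      exact hr4 (p5 r ir d2)
    have k3 : w4 ≠ z 6 := by
      rintro rfl
      exact hne 4 0 (by decide) (p6 (z 4) i4 d1)
    rcases c0 with b6 | ⟨w0, f1, f2, f3⟩
    · exfalso
      refine hC6 r r' (z 6) (z 5) (z 4) w4 ?_ arr' b6.symm a56.symm a45.symm d1 d2.symm
      have x1 : r ≠ r' := fun h => nr' (h ▸ ir)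
      have x2 : r ≠ z 5 := fun h => n5 (h ▸ ir)
      have x3 : r ≠ z 6 := fun h => n6 (h ▸ ir)
      have x4 : r ≠ w4 := fun h => k0 (h ▸ ir)
      have x5 : r' ≠ z 4 := fun h => nr' (h ▸ i4)
      have x6 : z 6 ≠ z 5 := hne 6 5 (by decide)
      have x7 : z 6 ≠ z 4 := hne 6 4 (by decide)
      have x8 : z 5 ≠ z 4 := hne 5 4 (by decide)
      have x9 : z 4 ≠ w4 := fun h => k0 (h ▸ i4)
      simp only [List.nodup_cons, List.mem_cons, List.not_mem_nil, or_false, not_or,
        List.nodup_nil, and_true, not_false_eq_true]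
      exact ⟨⟨x1, x3, x2, hr4, x4⟩, ⟨hr'6, hr'5, x5, k1.symm⟩, ⟨x6, x7, k3.symm⟩, ⟨x8, k2.symm⟩, x9⟩
    · have g0 : w0 ∉ (S 0).1 := fun h => hind _ i0 _ h f1
      have g2 : w0 ≠ z 5 := by
        rintro rfl
        exact hne 0 4 (by decide) (p5 (z 0) i0 f1)
      have g3 : w0 ≠ z 6 := by
        rintro rfl
        exact hr0 (p6 r ir f2)
      have g4 : w0 ≠ w4 := by
        rintro rfl
        rcases f3 (z 4) i4 d1 with h | h
        · exact hne 4 0 (by decide) h
        · exact hr4 h.symm
      refine ⟨fun k => z (k + 4), ![z 4, z 5, z 6, z 0, w0, r, w4], ?_, ?_, ?_, ?_, ?_, ?_, ?_⟩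
      · refine ⟨?_, ?_⟩
        · intro i j hij
          exact add_right_cancel (hz.1 hij)
        · intro k
          have := hz.2 (k + 4)
          show G.Adj (z (k + 4)) (z (k + 1 + 4))
          rwa [show k + 1 + 4 = k + 4 + 1 by ring]
      · have y1 : z 4 ≠ z 5 := hne 4 5 (by decide)
        have y2 : z 4 ≠ z 6 := hne 4 6 (by decide)
        have y3 : z 4 ≠ z 0 := hne 4 0 (by decide)
        have y4 : z 4 ≠ w0 := fun h => g0 (h ▸ i4)
        have y5 : z 4 ≠ w4 := fun h => k0 (h ▸ i4)
        have y6 : z 5 ≠ z 6 := hne 5 6 (by decide)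
        have y7 : z 5 ≠ z 0 := hne 5 0 (by decide)
        have y8 : z 5 ≠ r := fun h => n5 (h ▸ ir)
        have y9 : z 6 ≠ z 0 := hne 6 0 (by decide)
        have y10 : z 6 ≠ r := fun h => n6 (h ▸ ir)
        have y11 : z 0 ≠ w0 := fun h => g0 (h ▸ i0)
        have y12 : z 0 ≠ w4 := fun h => k0 (h ▸ i0)
        have y13 : w0 ≠ r := fun h => g0 (h ▸ ir)
        have y14 : r ≠ w4 := fun h => k0 (h ▸ ir)
        refine ⟨?_, ?_⟩
        · intro i j hij
          rcases PP3_cases i with rfl | rfl | rfl | rfl | rfl | rfl | rfl <;>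
          rcases PP3_cases j with rfl | rfl | rfl | rfl | rfl | rfl | rfl <;>
          first
            | rfl
            | exact absurd hij y1 | exact absurd hij y2 | exact absurd hij y3
            | exact absurd hij y4 | exact absurd hij y5 | exact absurd hij y6
            | exact absurd hij y7 | exact absurd hij y8 | exact absurd hij y9
            | exact absurd hij y10 | exact absurd hij y11 | exact absurd hij y12
            | exact absurd hij y13 | exact absurd hij y14 | exact absurd hij hr4.symm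
            | exact absurd hij hr0.symm | exact absurd hij g2.symm | exact absurd hij g3.symm
            | exact absurd hij g4 | exact absurd hij k2.symm | exact absurd hij k3.symm
            | exact absurd hij.symm y1 | exact absurd hij.symm y2 | exact absurd hij.symm y3
            | exact absurd hij.symm y4 | exact absurd hij.symm y5 | exact absurd hij.symm y6
            | exact absurd hij.symm y7 | exact absurd hij.symm y8 | exact absurd hij.symm y9
            | exact absurd hij.symm y10 | exact absurd hij.symm y11 | exact absurd hij.symm y12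
            | exact absurd hij.symm y13 | exact absurd hij.symm y14
            | exact absurd hij.symm hr4.symm | exact absurd hij.symm hr0.symm
            | exact absurd hij.symm g2.symm | exact absurd hij.symm g3.symm
            | exact absurd hij.symm g4 | exact absurd hij.symm k2.symm
            | exact absurd hij.symm k3.symm
        · intro k
          rcases PP3_cases k with rfl | rfl | rfl | rfl | rfl | rfl | rfl
          · exact a45
          · exact a56
          · exact a60
          · exact f1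
          · exact f2.symm
          · exact d2
          · exact d1.symm
      · show z (0 + 4) = z 4
        rw [zero_add]
      · show z (1 + 4) = z 5
        rw [show (1 + 4 : ZMod 7) = 5 by decide]
      · show z (2 + 4) = z 6
        rw [show (2 + 4 : ZMod 7) = 6 by decide]
      · show z (3 + 4) = z 0
        rw [show (3 + 4 : ZMod 7) = 0 by decide]
      · show z (5 + 4) ≠ r
        rw [show (5 + 4 : ZMod 7) = 2 by decide]
        exact hr2.symm

end Pool.Agent.helper91.SI
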